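import Pool.Agent.Helper27.NC.Main
import Pool.Agent.Helper18.NC.Hid
import Pool.Agent.Helper84.NB.Places

/-!
# The bound with the explicit words of bits (project NB+, B18a')
-/

set_option autoImplicit false

namespace Pool.Agent.Helper84.NC

open Pool.Agent.Helper19.NF (Prog out Pos Dir)
open Pool.Agent.Helper27.NB (num num_injective num_lt)
open Pool.Agent.Helper27.NC (Hid wd bword table main_bound)
open Pool.Agent.Helper18.NC (exists_hid)

variable {K : Type} [Field K] [Fintype K] {n m e σ S : ℕ} [NeZero m]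

/-- B18a': the general bound with the word written out; `c` is the characteristic. -/
theorem bound_word {Y : Type} (c : ℕ) [Fact c.Prime] [CharP K c] (d M : ℕ) (hn : 1 ≤ n) (he : 1 ≤ e)
    (hQ : 2 * m * e ≤ Fintype.card K)
    (hd : d < (Fintype.card K - (2 * m * e - 1)) * (Fintype.card K - Fintype.card K / c))
    (hM : 4 * (n * m) ≤ M) (hM' : 2 * Fintype.card K ^ e ≤ M)
    (hM'' : (M : ℝ) * ((Fintype.card K : ℝ) ^ (2 * m * e) * (1 - 1 / (8 * (c : ℝ) ^ 2)) ^ d) ≤ 1) (x : ℝ) (hx : 0 < x)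
    (x0 : ZMod (n + 1) × ZMod m → Fin e → K) (h0 : Function.Injective x0) (φ : (Fin e → K) → Y) (p T : ℕ)
    (hφ : ∀ y, Nat.card {b // φ b = y} ≤ p) (P : Prog ((Fin e → K) × (K × K)) Bool (Y × Fin σ) σ S) :
    (Nat.card {s : Fin σ × ((Fin e → K) × (K × K) → Bool) //
          P.Outputs s.2 (P.start s.1) (φ (out x0 (table s.2)), s.1) ∧
          Nat.card {b // P.Asks s.2 (P.start s.1) b} ≤ T} : ℝ) ≤
        (σ * ((2 * (n * (n + 1) * m) ^ 2 + (1 + 1 / M) * p) / (Fintype.card K : ℝ) ^ e + 2 * (n * m *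
            (((T / ((Fintype.card K - (2 * m * e - 1)) * (Fintype.card K - Fintype.card K / c) - d) : ℕ) : ℝ) /
              (Fintype.card K : ℝ) ^ e) ^ m)) +
          2 * (S * (Real.exp x * (4 * m ^ 2 * ((T : ℝ) / (Fintype.card K : ℝ) ^ e) / x + 2 * m ^ 2 * n *
            (((T / ((Fintype.card K - (2 * m * e - 1)) * (Fintype.card K - Fintype.card K / c) - d) : ℕ) : ℝ) /
              (Fintype.card K : ℝ) ^ e) ^ m) ^ (n - 1)))) * Nat.card ((Fin e → K) × (K × K) → Bool) := by
  classical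
  have hc : 2 ≤ c := (Fact.out : c.Prime).two_le
  have hm : 1 ≤ m := Nat.one_le_iff_ne_zero.2 (NeZero.ne m)
  have hr1 : 1 ≤ 2 * m * e := Nat.mul_pos (by omega) he
  have hpl := (Pool.Agent.Helper84.NB.places (Q := Fintype.card K) hc hr1 hQ).2
  have hcD : e * Fintype.card (Dir m) = 2 * m * e := by
    rw [Fintype.card_prod, Fintype.card_bool, ZMod.card]
    ring
  have hex := exists_hid (K := K) (D := Dir m) c e he num num_injective num_lt (by rw [hcD]; exact hQ) d
    (Fintype.card K ^ 2 - ((Fintype.card K - (2 * m * e - 1)) * (Fintype.card K - Fintype.card K / c) - d - 1)) M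
    (Nat.sub_le _ _)
  rw [hcD] at hex
  generalize hA' : (Fintype.card K - (2 * m * e - 1)) * (Fintype.card K - Fintype.card K / c) = A' at *
  obtain ⟨A, hA⟩ : ∃ A, A' = A + 1 + d := ⟨A' - d - 1, by omega⟩
  have e1 : A' - d = A + 1 := by omega
  rw [e1] at hex ⊢
  rw [Nat.add_sub_cancel] at hex
  obtain ⟨ρ, H, hH⟩ := hex (by omega) hM''
  have hcB : Fintype.card (Fin e → K) = Fintype.card K ^ e := by
    rw [Fintype.card_fun, Fintype.card_fin]
  have hah : A + (Fintype.card K ^ 2 - A) = Fintype.card (K × K) := by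
    rw [Fintype.card_prod, ← pow_two]
    omega
  have h1 := main_bound hn H hah hM (by rw [hcB]; exact hM') x0 h0 P φ p T hφ x hx
  have h2 : ∀ J : (Fin e → K) × (K × K) → Bool, wd H J = table J := by
    intro J
    funext b c'
    rw [wd, hH]
    rfl
  simp only [h2, hcB, Nat.cast_pow] at h1
  exact h1

end Pool.Agent.Helper84.NC
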